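import Pool.Agent.Helper65_SIU.SPH

/-!
# MP_021b97_an, module AP2: approximation on `C × 𝕂`
-/

set_option autoImplicit false

open MeasureTheory Filter Topology

namespace Pool.Agent.SIU.H65

/-- the points over the curve -/
noncomputable def pz (s t : ℂ) (y : ℝ) : E7 := ![s, t, 0, 0, 1, (y : ℂ), 1]

theorem pz_mem {s t : ℂ} (h : s ≠ 0 ∨ t ≠ 0) (y : ℝ) : pz s t y ∈ X2.U := by
  rw [mem_U]
  simpa [pz] using h

theorem act_pz (l s t : ℂ) (y : ℝ) :
    X2.act ![l, 1, 1] (pz s t y) = pz (l * s) (l * t) y := by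
  rw [act_eq]
  funext m
  fin_cases m <;> simp [pz]

theorem AA_pz (s t : ℂ) (y : ℝ) : AA (pz s t y) = ‖s‖ ^ 2 + ‖t‖ ^ 2 := by
  simp [AA, pz]

theorem NN_pz (i : Fin 3) (s t : ℂ) (y : ℝ) : NN i (pz s t y) = NN i (pz s t 0) := by
  fin_cases i
  · show NN 0 _ = NN 0 _
    rw [NN0, NN0]
    simp [pz]
  · show NN 1 _ = NN 1 _
    rw [NN1, NN1]
    simp [pz]
  · show NN 2 _ = NN 2 _
    rw [NN2, NN2]
    simp [pz]

/-- the sphere -/
def S3 : Set (ℂ × ℂ) := {p | ‖p.1‖ ^ 2 + ‖p.2‖ ^ 2 = 1}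

theorem isCompact_S3 : IsCompact S3 := by
  apply Metric.isCompact_of_isClosed_isBounded
  · exact isClosed_eq (by fun_prop) continuous_const
  · refine (Metric.isBounded_closedBall (x := (0 : ℂ × ℂ)) (r := 1)).subset ?_
    rintro ⟨s, t⟩ h
    have h' : ‖s‖ ^ 2 + ‖t‖ ^ 2 = 1 := h
    rw [mem_closedBall_zero_iff, Prod.norm_def]
    refine max_le ?_ ?_
    · show ‖s‖ ≤ 1
      nlinarith [norm_nonneg s, norm_nonneg t]
    · show ‖t‖ ≤ 1
      nlinarith [norm_nonneg s, norm_nonneg t]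

theorem S3_ne {p : ℂ × ℂ} (hp : p ∈ S3) : p.1 ≠ 0 ∨ p.2 ≠ 0 := by
  by_contra h
  push Not at h
  have h' : ‖p.1‖ ^ 2 + ‖p.2‖ ^ 2 = 1 := hp
  rw [h.1, h.2] at h'
  simp at h'

/-- the map to the sphere -/
noncomputable def Psi (p : ℂ × ℂ) : Fin 3 → ℝ := fun i => NN i (pz p.1 p.2 0)

theorem continuous_pz : Continuous (fun q : (ℂ × ℂ) × ℝ => pz q.1.1 q.1.2 q.2) := by
  apply continuous_pi
  intro m
  fin_cases m
  · show Continuous fun q : (ℂ × ℂ) × ℝ => q.1.1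
    fun_prop
  · show Continuous fun q : (ℂ × ℂ) × ℝ => q.1.2
    fun_prop
  · exact continuous_const
  · exact continuous_const
  · exact continuous_const
  · show Continuous fun q : (ℂ × ℂ) × ℝ => (q.2 : ℂ)
    fun_prop
  · exact continuous_const

theorem continuous_Psi : Continuous Psi := by
  apply continuous_pi
  intro i
  have h1 : Continuous (fun p : ℂ × ℂ => pz p.1 p.2 0) := by
    have : Continuous (fun p : ℂ × ℂ => ((p, (0 : ℝ)) : (ℂ × ℂ) × ℝ)) := by fun_prop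
    exact continuous_pz.comp this
  exact (contDiff_NN i).continuous.comp h1

theorem pol_pz (P : MvPolynomial (Fin 3) ℝ) {p : ℂ × ℂ} (hp : p ∈ S3) (y : ℝ) :
    pol P (pz p.1 p.2 y) = MvPolynomial.eval (Psi p) P := by
  unfold pol
  congr 2
  funext i
  have hA : AA (pz p.1 p.2 y) = 1 := by rw [AA_pz]; exact hp
  rw [xx_eq, hA, inv_one, mul_one, NN_pz]
  rfl

/-- the fibres of `Psi` are orbits -/
theorem fibre {p q : ℂ × ℂ} (hp : p ∈ S3) (hq : q ∈ S3) (h : Psi p = Psi q) :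
    ∃ l : ℂ, l ≠ 0 ∧ q.1 = l * p.1 ∧ q.2 = l * p.2 := by
  obtain ⟨s, t⟩ := p
  obtain ⟨s', t'⟩ := q
  have h0 := congrFun h 0
  have h1 := congrFun h 1
  have h2 := congrFun h 2
  have hp' : ‖s‖ ^ 2 + ‖t‖ ^ 2 = 1 := hp
  have hq' : ‖s'‖ ^ 2 + ‖t'‖ ^ 2 = 1 := hq
  have e0 : 2 * (s.re * t.re + s.im * t.im) = 2 * (s'.re * t'.re + s'.im * t'.im) := h0
  have e1 : 2 * (s.im * t.re - s.re * t.im) = 2 * (s'.im * t'.re - s'.re * t'.im) := h1
  have e2 : t.re ^ 2 + t.im ^ 2 - (s.re ^ 2 + s.im ^ 2) =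
    t'.re ^ 2 + t'.im ^ 2 - (s'.re ^ 2 + s'.im ^ 2) := h2
  rw [norm_sq_eq', norm_sq_eq'] at hp' hq'
  have ht : t.re ^ 2 + t.im ^ 2 = t'.re ^ 2 + t'.im ^ 2 := by linarith
  have hs : s.re ^ 2 + s.im ^ 2 = s'.re ^ 2 + s'.im ^ 2 := by linarith
  have hst : s * (starRingEnd ℂ) t = s' * (starRingEnd ℂ) t' := by
    apply Complex.ext
    · simp
      linarith
    · simp
      linarith
  have htt : t * (starRingEnd ℂ) t = t' * (starRingEnd ℂ) t' := by
    rw [Complex.mul_conj, Complex.mul_conj, Complex.normSq_apply, Complex.normSq_apply]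
    congr 1
    linarith
  show ∃ l : ℂ, l ≠ 0 ∧ s' = l * s ∧ t' = l * t
  by_cases hz0 : t = 0
  · have ht0 : t' = 0 := by
      rw [hz0] at htt
      have : t' * (starRingEnd ℂ) t' = 0 := by rw [← htt]; simp
      simpa using this
    have hs0 : s ≠ 0 := by
      rintro rfl
      rw [hz0] at hp'
      simp at hp'
    have hs0' : s' ≠ 0 := by
      rintro rfl
      rw [ht0] at hq'
      simp at hq'
    refine ⟨s' / s, div_ne_zero hs0' hs0, ?_, ?_⟩
    · field_simp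
    · rw [ht0, hz0]; simp
  · have ht0 : t' ≠ 0 := by
      rintro rfl
      have : t * (starRingEnd ℂ) t = 0 := by rw [htt]; simp
      apply hz0
      simpa using this
    have hc : (starRingEnd ℂ) t ≠ 0 := by simpa using hz0
    have hc' : (starRingEnd ℂ) t' ≠ 0 := by simpa using ht0
    refine ⟨t' / t, div_ne_zero ht0 hz0, ?_, ?_⟩
    · have h1 : s' * (t * (starRingEnd ℂ) t) = t' / t * s * (t * (starRingEnd ℂ) t) := by
        calc s' * (t * (starRingEnd ℂ) t) = t' * (s' * (starRingEnd ℂ) t') := by rw [htt]; ring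
          _ = t' * (s * (starRingEnd ℂ) t) := by rw [hst]
          _ = t' / t * s * (t * (starRingEnd ℂ) t) := by field_simp
      exact mul_right_cancel₀ (mul_ne_zero hz0 hc) h1
    · field_simp

/-- Stone-Weierstrass -/
theorem approx_S3 (h : ℂ × ℂ → ℝ) (hc : ContinuousOn h S3)
    (hinv : ∀ p ∈ S3, ∀ q ∈ S3, Psi p = Psi q → h p = h q) {ε : ℝ} (hε : 0 < ε) :
    ∃ P : MvPolynomial (Fin 3) ℝ, ∀ p ∈ S3, |h p - MvPolynomial.eval (Psi p) P| ≤ ε := by
  classical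
  let f : S3 → (Fin 3 → ℝ) := fun p => Psi p.1
  have hf : Continuous f := continuous_Psi.comp continuous_subtype_val
  have : CompactSpace S3 := isCompact_iff_compactSpace.mp isCompact_S3
  let X : Set (Fin 3 → ℝ) := Set.range f
  have hX : IsCompact X := isCompact_range hf
  have : CompactSpace X := isCompact_iff_compactSpace.mp hX
  let π : C(S3, X) := ⟨Set.rangeFactorization f, by
    exact Continuous.subtype_mk hf _⟩
  have hπs : Function.Surjective π := Set.rangeFactorization_surjective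
  have hπ : IsQuotientMap π := π.continuous.isClosedMap.isQuotientMap π.continuous hπs
  let g : C(S3, ℝ) := ⟨fun p => h p.1, hc.domRestrict⟩
  have hfac : Function.FactorsThrough g π := by
    intro p q hpq
    exact hinv p.1 p.2 q.1 q.2 (congrArg Subtype.val hpq)
  let k : C(X, ℝ) := hπ.lift g hfac
  have hk : ∀ p : S3, k (π p) = h p.1 := fun p => by
    have := congrArg (fun u : C(S3, ℝ) => u p) (hπ.lift_comp g hfac)
    exact this
  let φ : MvPolynomial (Fin 3) ℝ →ₐ[ℝ] C(X, ℝ) :=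
    MvPolynomial.aeval (fun i => (⟨fun x => x.1 i,
      (continuous_apply i).comp continuous_subtype_val⟩ : C(X, ℝ)))
  have hφ : ∀ (P : MvPolynomial (Fin 3) ℝ) (x : X), φ P x = MvPolynomial.eval x.1 P := by
    intro P x
    induction P using MvPolynomial.induction_on with
    | C a => simp [φ]
    | add p q hp hq => rw [map_add, map_add, ← hp, ← hq]; rfl
    | mul_X p i hp =>
      rw [map_mul, map_mul, ← hp]
      simp [φ]
  have hsep : φ.range.SeparatesPoints := by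
    intro x y hxy
    have : ∃ i, x.1 i ≠ y.1 i := by
      by_contra hcon
      push Not at hcon
      exact hxy (Subtype.ext (funext hcon))
    obtain ⟨i, hi⟩ := this
    refine ⟨φ (MvPolynomial.X i), ⟨φ (MvPolynomial.X i), ⟨MvPolynomial.X i, rfl⟩, rfl⟩, ?_⟩
    rw [hφ, hφ]
    simpa using hi
  obtain ⟨⟨u, ⟨P, hP⟩⟩, hu⟩ :=
    ContinuousMap.exists_mem_subalgebra_near_continuousMap_of_separatesPoints φ.range hsep k ε hε
  refine ⟨P, fun p hp => ?_⟩
  have h1 := (ContinuousMap.norm_coe_le_norm (u - k) (π ⟨p, hp⟩)).trans hu.le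
  have h2 : (u - k) (π ⟨p, hp⟩) = MvPolynomial.eval (Psi p) P - h p := by
    show u _ - k _ = _
    rw [hk]
    have : u = φ P := hP.symm
    rw [this, hφ]
    rfl
  rw [h2, Real.norm_eq_abs, abs_sub_comm] at h1
  exact h1

theorem pol_act (P : MvPolynomial (Fin 3) ℝ) {z : E7} (hz : z ∈ X2.U) {c : Fin 3 → ℂ}
    (hc : ∀ j, c j ≠ 0) : pol P (X2.act c z) = pol P z := by
  unfold pol
  congr 2
  funext i
  exact (inv_xx i).2 z hz c hc

theorem l11_ne {l : ℂ} (hl : l ≠ 0) : ∀ j, (![l, 1, 1] : Fin 3 → ℂ) j ≠ 0 := by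
  intro j
  fin_cases j
  · exact hl
  · exact one_ne_zero
  · exact one_ne_zero

theorem ap2 : Ap2Stmt := by
  intro 𝕂 hK hKQ a ha η hη
  have hG : ContinuousOn (fun q : (ℂ × ℂ) × ℝ => a (pz q.1.1 q.1.2 q.2)) (S3 ×ˢ 𝕂) := by
    apply ha.1.continuousOn.comp continuous_pz.continuousOn
    intro q hq
    exact pz_mem (S3_ne hq.1) q.2
  have hun := (isCompact_S3.prod hK).uniformContinuousOn_of_continuous hG
  rw [Metric.uniformContinuousOn_iff] at hun
  obtain ⟨δ, hδ, hun⟩ := hun (η / 2) (by positivity)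
  obtain ⟨q, hq0, hqδ⟩ := exists_rat_btwn hδ
  obtain ⟨R, hR⟩ := hK.isBounded.exists_norm_le
  obtain ⟨N, hN⟩ := exists_nat_gt (R / q)
  have hch : ∀ l : Fin (2 * N), ∃ P : MvPolynomial (Fin 3) ℝ, ∀ y ∈ 𝕂,
      ((((l : ℕ) : ℝ) - N) * q < y ∧ y < (((l : ℕ) : ℝ) + 1 - N) * q) →
      ∀ p ∈ S3, |a (pz p.1 p.2 y) - MvPolynomial.eval (Psi p) P| ≤ η := by
    intro l
    by_cases hex : ∃ y₀ ∈ 𝕂, (((l : ℕ) : ℝ) - N) * q < y₀ ∧ y₀ < (((l : ℕ) : ℝ) + 1 - N) * q
    · obtain ⟨y₀, hy₀, hlo, hhi⟩ := hex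
      have hc : ContinuousOn (fun p : ℂ × ℂ => a (pz p.1 p.2 y₀)) S3 := by
        have h1 : ContinuousOn (fun p : ℂ × ℂ => ((p, y₀) : (ℂ × ℂ) × ℝ)) S3 := by fun_prop
        exact hG.comp h1 fun p hp => ⟨hp, hy₀⟩
      have hinv : ∀ p ∈ S3, ∀ q ∈ S3, Psi p = Psi q →
          a (pz p.1 p.2 y₀) = a (pz q.1 q.2 y₀) := by
        intro p hp q hq h
        obtain ⟨l, hl, h1, h2⟩ := fibre hp hq h
        rw [h1, h2, ← act_pz, ha.2 _ (pz_mem (S3_ne hp) _) _ (l11_ne hl)]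
      obtain ⟨P, hP⟩ := approx_S3 _ hc hinv (ε := η / 2) (by positivity)
      refine ⟨P, ?_⟩
      rintro y hy ⟨h1, h2⟩ p hp
      have h3 := hun (p, y) ⟨hp, hy⟩ (p, y₀) ⟨hp, hy₀⟩ (by
        rw [Prod.dist_eq]
        simp only [dist_self]
        rw [max_eq_right dist_nonneg, Real.dist_eq, abs_lt]
        constructor <;> nlinarith)
      rw [Real.dist_eq] at h3
      have h4 := hP p hp
      have h5 : a (pz p.1 p.2 y) - MvPolynomial.eval (Psi p) P =
        (a (pz p.1 p.2 y) - a (pz p.1 p.2 y₀)) +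
        (a (pz p.1 p.2 y₀) - MvPolynomial.eval (Psi p) P) := by ring
      rw [h5]
      have h6 := abs_add_le (a (pz p.1 p.2 y) - a (pz p.1 p.2 y₀))
        (a (pz p.1 p.2 y₀) - MvPolynomial.eval (Psi p) P)
      have h3' : |a (pz p.1 p.2 y) - a (pz p.1 p.2 y₀)| < η / 2 := h3
      linarith
    · refine ⟨0, fun y hy h => ?_⟩
      exact absurd ⟨y, hy, h⟩ hex
  choose P hP using hch
  refine ⟨2 * N, P, fun l => (((l : ℕ) : ℚ) - N) * q, fun l => (((l : ℕ) : ℚ) + 1 - N) * q,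
    ?_, ?_⟩
  · intro l
    have : (0 : ℚ) < q := by exact_mod_cast hq0
    show (((l : ℕ) : ℚ) - N) * q < (((l : ℕ) : ℚ) + 1 - N) * q
    nlinarith
  · intro s t hst y hy
    -- normalization
    have hA : 0 < ‖s‖ ^ 2 + ‖t‖ ^ 2 := by
      rcases hst with h | h
      · have := norm_pos_iff.mpr h
        positivity
      · have := norm_pos_iff.mpr h
        positivity
    obtain ⟨r, hr0, hr⟩ : ∃ r : ℝ, 0 < r ∧ r ^ 2 * (‖s‖ ^ 2 + ‖t‖ ^ 2) = 1 := by
      refine ⟨(√(‖s‖ ^ 2 + ‖t‖ ^ 2))⁻¹, inv_pos.mpr (Real.sqrt_pos.mpr hA), ?_⟩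
      rw [inv_pow, Real.sq_sqrt hA.le]
      exact inv_mul_cancel₀ hA.ne'
    have hrc : (r : ℂ) ≠ 0 := by exact_mod_cast hr0.ne'
    have hp : (((r : ℂ) * s, (r : ℂ) * t) : ℂ × ℂ) ∈ S3 := by
      show ‖(r : ℂ) * s‖ ^ 2 + ‖(r : ℂ) * t‖ ^ 2 = 1
      rw [norm_mul, norm_mul, Complex.norm_real, Real.norm_of_nonneg hr0.le]
      rw [← hr]; ring
    have ha' : a ![s, t, 0, 0, 1, (y : ℂ), 1] = a (pz ((r : ℂ) * s) ((r : ℂ) * t) y) := by
      rw [← act_pz, ha.2 _ (pz_mem hst _) _ (l11_ne hrc)]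
      rfl
    have hpol : ∀ Q : MvPolynomial (Fin 3) ℝ, pol Q ![s, t, 0, 0, 1, (y : ℂ), 1] =
        MvPolynomial.eval (Psi ((r : ℂ) * s, (r : ℂ) * t)) Q := by
      intro Q
      rw [← pol_pz Q hp y]
      show _ = pol Q (pz ((r : ℂ) * s) ((r : ℂ) * t) y)
      rw [← act_pz, pol_act Q (pz_mem hst _) (l11_ne hrc)]
      rfl
    -- the piece
    have hyR := hR y hy
    rw [Real.norm_eq_abs] at hyR
    have hyq : |y / q| < N := by
      rw [abs_div, abs_of_pos hq0]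
      exact lt_of_le_of_lt (div_le_div_of_nonneg_right hyR hq0.le) hN
    rw [abs_lt] at hyq
    have hfl := Int.floor_le (y / q)
    have hfl2 := Int.lt_floor_add_one (y / q)
    have hne : (⌊y / (q : ℝ)⌋ : ℝ) ≠ y / q := by
      intro h
      apply hKQ (⌊y / (q : ℝ)⌋ * q)
      have : y = ((⌊y / (q : ℝ)⌋ : ℤ) : ℝ) * q := by
        rw [h]; field_simp
      rw [Rat.cast_mul, Rat.cast_intCast, ← this]
      exact hy
    have hlt : (⌊y / (q : ℝ)⌋ : ℝ) < y / q := lt_of_le_of_ne hfl hne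
    obtain ⟨n, hn⟩ : ∃ n : ℤ, n = ⌊y / (q : ℝ)⌋ := ⟨_, rfl⟩
    rw [← hn] at hlt hfl2
    have hnN : (-(N : ℤ)) ≤ n := by
      have : (-(N : ℝ)) < n + 1 := by linarith [hyq.1]
      have : (-(N : ℤ)) < n + 1 := by exact_mod_cast this
      omega
    have hnN2 : n < N := by
      have : (n : ℝ) < N := by linarith [hyq.2]
      exact_mod_cast this
    obtain ⟨k, hk⟩ : ∃ k : ℕ, (k : ℤ) = n + N := ⟨(n + N).toNat, by omega⟩
    have hk2 : k < 2 * N := by omega
    have hkr : (k : ℝ) = n + N := by exact_mod_cast hk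
    have hy1 : ((k : ℝ) - N) * q < y := by
      rw [hkr]
      have := mul_lt_mul_of_pos_right hlt hq0
      rw [div_mul_cancel₀ _ hq0.ne'] at this
      linarith
    have hy2 : y < ((k : ℝ) + 1 - N) * q := by
      rw [hkr]
      have := mul_lt_mul_of_pos_right hfl2 hq0
      rw [div_mul_cancel₀ _ hq0.ne'] at this
      linarith
    rw [Finset.sum_eq_single (⟨k, hk2⟩ : Fin (2 * N))]
    · have hcond : (((((⟨k, hk2⟩ : Fin (2 * N)) : ℕ) : ℚ) - N) * q : ℚ) < y ∧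
          y < (((((⟨k, hk2⟩ : Fin (2 * N)) : ℕ) : ℚ) + 1 - N) * q : ℚ) := by
        push_cast
        exact ⟨hy1, hy2⟩
      rw [if_pos hcond, ha', hpol]
      exact hP ⟨k, hk2⟩ y hy ⟨hy1, hy2⟩ _ hp
    · intro l _ hl
      rw [if_neg]
      rintro ⟨h1, h2⟩
      push_cast at h1 h2
      apply hl
      apply Fin.ext
      show (l : ℕ) = k
      have h3 : ((l : ℕ) : ℝ) < k + 1 := by
        have : (((l : ℕ) : ℝ) - N) * q < ((k : ℝ) + 1 - N) * q := h1.trans hy2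
        have := lt_of_mul_lt_mul_right this hq0.le
        linarith
      have h4 : (k : ℝ) < (l : ℕ) + 1 := by
        have : ((k : ℝ) - N) * q < (((l : ℕ) : ℝ) + 1 - N) * q := hy1.trans h2
        have := lt_of_mul_lt_mul_right this hq0.le
        linarith
      have h3' : (l : ℕ) < k + 1 := by exact_mod_cast h3
      have h4' : k < (l : ℕ) + 1 := by exact_mod_cast h4
      omega
    · intro h
      exact absurd (Finset.mem_univ _) h

end Pool.Agent.SIU.H65
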