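import Pool.Agent.Helper15_SIU.Stmts

/-!
# MP_021b97_an, module SPH: the functions `x₁, x₂, x₃` on the sphere and the area form
-/

set_option autoImplicit false

open MeasureTheory Filter Topology

namespace Pool.Agent.SIU.H65

theorem cc2_apply' {N : ℕ} (b c : (Fin N → ℂ) →L[ℝ] ℝ) (v : Fin 2 → Fin N → ℂ) :
    cc2 b c v = b (v 0) * c (v 1) - b (v 1) * c (v 0) := by
  simp [cc2, w1, ContinuousAlternatingMap.alternatizeUncurryFin_apply, Fin.sum_univ_succ, cst,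
    Fin.removeNth]
  ring

theorem ddc_cst_apply (f : E7 → ℝ) (z : E7) (hf : DifferentiableAt ℝ (fderiv ℝ f) z)
    (v : Fin 2 → E7) :
    ddc (fun w => cst 7 (f w)) z v =
      fderiv ℝ (fun w => fderiv ℝ f w (Complex.I • v 0)) z (v 1) -
      fderiv ℝ (fun w => fderiv ℝ f w (Complex.I • v 1)) z (v 0) := by
  have h1 : (fun w => (extDeriv (fun w => cst 7 (f w)) w).compContinuousLinearMap
      (mulC 7 Complex.I)) = fun w =>
      (ContinuousAlternatingMap.compContinuousLinearMapCLM (mulC 7 Complex.I))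
        (ContinuousAlternatingMap.ofSubsingletonLIE (𝕜 := ℝ) (E := E7) (F := ℝ) (0 : Fin 1)
          (fderiv ℝ f w)) := by
    funext w
    have := extDeriv_constOfIsEmpty (𝕜 := ℝ) f w
    unfold cst
    rw [this]
    rfl
  unfold ddc
  rw [h1]
  have h2 : DifferentiableAt ℝ (fun w =>
      (ContinuousAlternatingMap.compContinuousLinearMapCLM (mulC 7 Complex.I))
        (ContinuousAlternatingMap.ofSubsingletonLIE (𝕜 := ℝ) (E := E7) (F := ℝ) (0 : Fin 1)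
          (fderiv ℝ f w))) z := by
    apply (ContinuousLinearMap.differentiableAt _).comp z
    exact ((ContinuousAlternatingMap.ofSubsingletonLIE (𝕜 := ℝ) (E := E7) (F := ℝ)
      (0 : Fin 1)).toContinuousLinearEquiv.differentiableAt).comp z hf
  show - (extDeriv _ z v) = _
  rw [extDeriv_apply h2]
  simp [Fin.sum_univ_succ, Fin.removeNth, mulC]
  ring

/-- real coordinates -/
noncomputable def Rc (j : Fin 7) : E7 →L[ℝ] ℝ :=
  Complex.reCLM.comp (ContinuousLinearMap.proj (R := ℝ) (φ := fun _ : Fin 7 => ℂ) j)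

/-- imaginary parts of the coordinates -/
noncomputable def Ic (j : Fin 7) : E7 →L[ℝ] ℝ :=
  Complex.imCLM.comp (ContinuousLinearMap.proj (R := ℝ) (φ := fun _ : Fin 7 => ℂ) j)

@[simp] theorem Rc_apply (j : Fin 7) (z : E7) : Rc j z = (z j).re := rfl
@[simp] theorem Ic_apply (j : Fin 7) (z : E7) : Ic j z = (z j).im := rfl

theorem norm_sq_eq' (c : ℂ) : ‖c‖ ^ 2 = c.re ^ 2 + c.im ^ 2 := by
  rw [← Complex.normSq_eq_norm_sq, Complex.normSq_apply]; ring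

theorem AA_eq (z : E7) : AA z = Rc 0 z ^ 2 + Ic 0 z ^ 2 + (Rc 1 z ^ 2 + Ic 1 z ^ 2) := by
  simp only [AA, norm_sq_eq', Rc_apply, Ic_apply]

/-- the numerators -/
noncomputable def NN : Fin 3 → E7 → ℝ :=
  ![fun z => 2 * (Rc 0 z * Rc 1 z + Ic 0 z * Ic 1 z),
    fun z => 2 * (Ic 0 z * Rc 1 z - Rc 0 z * Ic 1 z),
    fun z => Rc 1 z ^ 2 + Ic 1 z ^ 2 - (Rc 0 z ^ 2 + Ic 0 z ^ 2)]

theorem xx_eq (i : Fin 3) (z : E7) : xx i z = NN i z * (AA z)⁻¹ := by
  fin_cases i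
  · simp [xx, NN, div_eq_mul_inv]
  · simp [xx, NN, div_eq_mul_inv]
    left
    ring
  · simp [xx, NN, div_eq_mul_inv, norm_sq_eq']

/-- derivative of `AA` -/
noncomputable def dAA (z : E7) : E7 →L[ℝ] ℝ :=
  (2 * Rc 0 z) • Rc 0 + (2 * Ic 0 z) • Ic 0 + (2 * Rc 1 z) • Rc 1 + (2 * Ic 1 z) • Ic 1

theorem sq_hasFDerivAt (L : E7 →L[ℝ] ℝ) (z : E7) :
    HasFDerivAt (fun w => L w ^ 2) ((2 * L z) • L) z := by
  have h := (L.hasFDerivAt (x := z)).fun_mul (L.hasFDerivAt (x := z))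
  have e : (fun w => L w ^ 2) = fun w => L w * L w := by
    funext w
    ring
  have e2 : (2 * L z) • L = L z • L + L z • L := by rw [← add_smul, two_mul]
  rw [e, e2]
  exact h

theorem AA_hasFDerivAt (z : E7) : HasFDerivAt AA (dAA z) z := by
  have h : AA = fun z => Rc 0 z ^ 2 + Ic 0 z ^ 2 + (Rc 1 z ^ 2 + Ic 1 z ^ 2) := funext AA_eq
  rw [h]
  have := ((sq_hasFDerivAt (Rc 0) z).fun_add (sq_hasFDerivAt (Ic 0) z)).fun_add
    ((sq_hasFDerivAt (Rc 1) z).fun_add (sq_hasFDerivAt (Ic 1) z))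
  have e : dAA z = (2 * Rc 0 z) • Rc 0 + (2 * Ic 0 z) • Ic 0 +
      ((2 * Rc 1 z) • Rc 1 + (2 * Ic 1 z) • Ic 1) := by
    unfold dAA
    abel
  rw [e]
  exact this

theorem contDiff_AA (n : WithTop ℕ∞) : ContDiff ℝ n AA := by
  have h : AA = fun z => Rc 0 z ^ 2 + Ic 0 z ^ 2 + (Rc 1 z ^ 2 + Ic 1 z ^ 2) := funext AA_eq
  rw [h]
  fun_prop

theorem contDiff_NN (i : Fin 3) : ContDiff ℝ ((⊤ : ℕ∞) : WithTop ℕ∞) (NN i) := by
  fin_cases i
  · show ContDiff ℝ ((⊤ : ℕ∞) : WithTop ℕ∞) fun z => 2 * (Rc 0 z * Rc 1 z + Ic 0 z * Ic 1 z)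
    fun_prop
  · show ContDiff ℝ ((⊤ : ℕ∞) : WithTop ℕ∞) fun z => 2 * (Ic 0 z * Rc 1 z - Rc 0 z * Ic 1 z)
    fun_prop
  · show ContDiff ℝ ((⊤ : ℕ∞) : WithTop ℕ∞)
      fun z => Rc 1 z ^ 2 + Ic 1 z ^ 2 - (Rc 0 z ^ 2 + Ic 0 z ^ 2)
    fun_prop

theorem mul_hasFDerivAt (L M : E7 →L[ℝ] ℝ) (z : E7) :
    HasFDerivAt (fun w => L w * M w) (L z • M + M z • L) z :=
  (L.hasFDerivAt (x := z)).mul (M.hasFDerivAt (x := z))

/-- derivatives of the numerators -/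
noncomputable def dNN : Fin 3 → E7 → E7 →L[ℝ] ℝ :=
  ![fun z => (2 : ℝ) • ((Rc 0 z • Rc 1 + Rc 1 z • Rc 0) + (Ic 0 z • Ic 1 + Ic 1 z • Ic 0)),
    fun z => (2 : ℝ) • ((Ic 0 z • Rc 1 + Rc 1 z • Ic 0) - (Rc 0 z • Ic 1 + Ic 1 z • Rc 0)),
    fun z => ((2 * Rc 1 z) • Rc 1 + (2 * Ic 1 z) • Ic 1) -
      ((2 * Rc 0 z) • Rc 0 + (2 * Ic 0 z) • Ic 0)]

theorem NN_hasFDerivAt (i : Fin 3) (z : E7) : HasFDerivAt (NN i) (dNN i z) z := by
  fin_cases i
  · exact ((mul_hasFDerivAt (Rc 0) (Rc 1) z).add (mul_hasFDerivAt (Ic 0) (Ic 1) z)).const_mul 2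
  · exact ((mul_hasFDerivAt (Ic 0) (Rc 1) z).sub (mul_hasFDerivAt (Rc 0) (Ic 1) z)).const_mul 2
  · exact ((sq_hasFDerivAt (Rc 1) z).add (sq_hasFDerivAt (Ic 1) z)).sub
      ((sq_hasFDerivAt (Rc 0) z).add (sq_hasFDerivAt (Ic 0) z))

theorem inv_hasFDerivAt {z : E7} (hz : AA z ≠ 0) :
    HasFDerivAt (fun w => (AA w)⁻¹) (-(AA z ^ 2)⁻¹ • dAA z) z :=
  (hasDerivAt_inv hz).comp_hasFDerivAt z (AA_hasFDerivAt z)

theorem fderiv_xx {z : E7} (hz : AA z ≠ 0) (i : Fin 3) (v : E7) :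
    fderiv ℝ (xx i) z v = (AA z * dNN i z v - NN i z * dAA z v) / AA z ^ 2 := by
  have h : xx i = fun w => NN i w * (AA w)⁻¹ := funext (xx_eq i)
  rw [h, ((NN_hasFDerivAt i z).fun_mul (inv_hasFDerivAt hz)).fderiv]
  simp
  field_simp
  ring

theorem fderiv_logA {z : E7} (hz : AA z ≠ 0) :
    fderiv ℝ (fun w => Real.log (AA w)) z = (AA z)⁻¹ • dAA z :=
  ((AA_hasFDerivAt z).log hz).fderiv

theorem dAA_apply (z v : E7) : dAA z v = 2 * ((z 0).re * (v 0).re + (z 0).im * (v 0).im +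
    (z 1).re * (v 1).re + (z 1).im * (v 1).im) := by
  simp [dAA]; ring

theorem dAA_hasFDerivAt (z u : E7) : HasFDerivAt (fun w => dAA w u) (dAA u) z := by
  have h : (fun w => dAA w u) = fun w => dAA u w := by
    funext w
    rw [dAA_apply, dAA_apply]; ring
  rw [h]
  exact (dAA u).hasFDerivAt

theorem kL_apply {z : E7} (hz : AA z ≠ 0) (v : Fin 2 → E7) :
    kL z v = (dAA (Complex.I • v 0) (v 1) - dAA (Complex.I • v 1) (v 0)) / AA z -
      (dAA z (v 1) * dAA z (Complex.I • v 0) - dAA z (v 0) * dAA z (Complex.I • v 1)) /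
        AA z ^ 2 := by
  unfold kL
  have hd : DifferentiableAt ℝ (fderiv ℝ (fun w => Real.log (AA w))) z := by
    have hC2 : ContDiffAt ℝ 2 (fun w => Real.log (AA w)) z := (contDiff_AA 2).contDiffAt.log hz
    have := hC2.fderiv_right (m := 1) (by norm_num)
    exact this.differentiableAt one_ne_zero
  rw [ddc_cst_apply _ _ hd]
  have key : ∀ u v : E7, fderiv ℝ (fun w => fderiv ℝ (fun w => Real.log (AA w)) w u) z v =
      dAA u v / AA z - dAA z v * dAA z u / AA z ^ 2 := by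
    intro u v
    have he : (fun w => fderiv ℝ (fun w => Real.log (AA w)) w u) =ᶠ[𝓝 z]
        fun w => (AA w)⁻¹ * dAA w u := by
      have : ∀ᶠ w in 𝓝 z, AA w ≠ 0 := continuous_AA.continuousAt.eventually_ne hz
      filter_upwards [this] with w hw
      rw [fderiv_logA hw]
      simp
    rw [he.fderiv_eq, ((inv_hasFDerivAt hz).fun_mul (dAA_hasFDerivAt z u)).fderiv]
    simp
    field_simp
    ring
  rw [key, key]
  ring

theorem smul_I_re (v : E7) (j : Fin 7) : ((Complex.I • v) j).re = -(v j).im := by simp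
theorem smul_I_im (v : E7) (j : Fin 7) : ((Complex.I • v) j).im = (v j).re := by simp

theorem dNN0 (z v : E7) : dNN 0 z v = 2 * ((z 0).re * (v 1).re + (z 1).re * (v 0).re +
    ((z 0).im * (v 1).im + (z 1).im * (v 0).im)) := by
  simp [dNN]
  ring

theorem dNN1 (z v : E7) : dNN 1 z v = 2 * ((z 0).im * (v 1).re + (z 1).re * (v 0).im -
    ((z 0).re * (v 1).im + (z 1).im * (v 0).re)) := by
  simp [dNN]

theorem dNN2 (z v : E7) : dNN 2 z v = 2 * ((z 1).re * (v 1).re + (z 1).im * (v 1).im -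
    ((z 0).re * (v 0).re + (z 0).im * (v 0).im)) := by
  simp [dNN]
  ring

theorem NN0 (z : E7) : NN 0 z = 2 * ((z 0).re * (z 1).re + (z 0).im * (z 1).im) := rfl
theorem NN1 (z : E7) : NN 1 z = 2 * ((z 0).im * (z 1).re - (z 0).re * (z 1).im) := rfl
theorem NN2 (z : E7) : NN 2 z = (z 1).re ^ 2 + (z 1).im ^ 2 - ((z 0).re ^ 2 + (z 0).im ^ 2) := rfl

/-- the value of `kL` -/
theorem kL_apply' {z : E7} (hz : AA z ≠ 0) (v : Fin 2 → E7) :
    kL z v = 4 * (((z 0).re * (v 0 1).re - (z 0).im * (v 0 1).im - (z 1).re * (v 0 0).re +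
      (z 1).im * (v 0 0).im) * ((z 0).re * (v 1 1).im + (z 0).im * (v 1 1).re -
      (z 1).re * (v 1 0).im - (z 1).im * (v 1 0).re) -
      ((z 0).re * (v 1 1).re - (z 0).im * (v 1 1).im - (z 1).re * (v 1 0).re +
      (z 1).im * (v 1 0).im) * ((z 0).re * (v 0 1).im + (z 0).im * (v 0 1).re -
      (z 1).re * (v 0 0).im - (z 1).im * (v 0 0).re)) / AA z ^ 2 := by
  have e : AA z = (z 0).re ^ 2 + (z 0).im ^ 2 + ((z 1).re ^ 2 + (z 1).im ^ 2) := AA_eq z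
  rw [kL_apply hz]
  simp only [dAA_apply, smul_I_re, smul_I_im]
  rw [div_sub_div _ _ hz (pow_ne_zero 2 hz), div_eq_div_iff (by positivity) (by positivity)]
  rw [e]
  ring

/-- wedge of two differentials of quotients -/
theorem quot_wedge {A : ℝ} (hA : A ≠ 0) (M M' dMv dMw dM'v dM'w dAv dAw : ℝ) :
    (A * dMv - M * dAv) / A ^ 2 * ((A * dM'w - M' * dAw) / A ^ 2) -
      (A * dMw - M * dAw) / A ^ 2 * ((A * dM'v - M' * dAv) / A ^ 2) =
    (A * (dMv * dM'w - dMw * dM'v) - M' * (dMv * dAw - dMw * dAv) -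
      M * (dAv * dM'w - dAw * dM'v)) / A ^ 3 := by
  field_simp
  ring

theorem key12 {z : E7} (hz : AA z ≠ 0) :
    cc2 (fderiv ℝ (xx 1) z) (fderiv ℝ (xx 2) z) = xx 0 z • kL z := by
  have e : AA z = (z 0).re ^ 2 + (z 0).im ^ 2 + ((z 1).re ^ 2 + (z 1).im ^ 2) := AA_eq z
  ext v
  rw [cc2_apply', fderiv_xx hz, fderiv_xx hz, fderiv_xx hz, fderiv_xx hz, quot_wedge hz]
  show _ = xx 0 z * kL z v
  rw [kL_apply' hz, xx_eq, dNN1, dNN1, dNN2, dNN2, NN0, NN1, NN2, ← div_eq_mul_inv,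
    div_mul_div_comm, div_eq_div_iff (by positivity) (by positivity)]
  have e3 : AA z * AA z ^ 2 = AA z ^ 3 := by ring
  rw [e3]
  congr 1
  simp only [dAA_apply]
  rw [e]
  ring

theorem key20 {z : E7} (hz : AA z ≠ 0) :
    cc2 (fderiv ℝ (xx 2) z) (fderiv ℝ (xx 0) z) = xx 1 z • kL z := by
  have e : AA z = (z 0).re ^ 2 + (z 0).im ^ 2 + ((z 1).re ^ 2 + (z 1).im ^ 2) := AA_eq z
  ext v
  rw [cc2_apply', fderiv_xx hz, fderiv_xx hz, fderiv_xx hz, fderiv_xx hz, quot_wedge hz]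
  show _ = xx 1 z * kL z v
  rw [kL_apply' hz, xx_eq, dNN2, dNN2, dNN0, dNN0, NN0, NN1, NN2, ← div_eq_mul_inv,
    div_mul_div_comm, div_eq_div_iff (by positivity) (by positivity)]
  have e3 : AA z * AA z ^ 2 = AA z ^ 3 := by ring
  rw [e3]
  congr 1
  simp only [dAA_apply]
  rw [e]
  ring

theorem key01 {z : E7} (hz : AA z ≠ 0) :
    cc2 (fderiv ℝ (xx 0) z) (fderiv ℝ (xx 1) z) = xx 2 z • kL z := by
  have e : AA z = (z 0).re ^ 2 + (z 0).im ^ 2 + ((z 1).re ^ 2 + (z 1).im ^ 2) := AA_eq z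
  ext v
  rw [cc2_apply', fderiv_xx hz, fderiv_xx hz, fderiv_xx hz, fderiv_xx hz, quot_wedge hz]
  show _ = xx 2 z * kL z v
  rw [kL_apply' hz, xx_eq, dNN0, dNN0, dNN1, dNN1, NN0, NN1, NN2, ← div_eq_mul_inv,
    div_mul_div_comm, div_eq_div_iff (by positivity) (by positivity)]
  have e3 : AA z * AA z ^ 2 = AA z ^ 3 := by ring
  rw [e3]
  congr 1
  simp only [dAA_apply]
  rw [e]
  ring

theorem sum_sq {z : E7} (hz : AA z ≠ 0) : ∑ i, xx i z ^ 2 = 1 := by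
  have e : AA z = (z 0).re ^ 2 + (z 0).im ^ 2 + ((z 1).re ^ 2 + (z 1).im ^ 2) := AA_eq z
  rw [Fin.sum_univ_three, xx_eq, xx_eq, xx_eq, NN0, NN1, NN2]
  have : AA z ^ 2 * (AA z)⁻¹ ^ 2 = 1 := by
    rw [← mul_pow, mul_inv_cancel₀ hz, one_pow]
  rw [← this]
  generalize (AA z)⁻¹ = B
  rw [e]
  ring

theorem inv_xx (i : Fin 3) : InvFn (xx i) := by
  constructor
  · have h : xx i = fun w => NN i w * (AA w)⁻¹ := funext (xx_eq i)
    rw [h]
    exact (contDiff_NN i).contDiffOn.mul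
      ((contDiff_AA _).contDiffOn.inv fun z hz => (AA_pos hz).ne')
  · intro z hz c hc
    have hA := (AA_pos hz).ne'
    have h0 : ‖c 0‖ ≠ 0 := norm_ne_zero_iff.mpr (hc 0)
    have hn : ‖c 0‖ ^ 2 = (c 0).re ^ 2 + (c 0).im ^ 2 := norm_sq_eq' _
    rw [xx_eq, xx_eq, AA_act]
    have key : NN i (X2.act c z) = ‖c 0‖ ^ 2 * NN i z := by
      rw [act_eq, hn]
      fin_cases i
      · show NN 0 _ = _ * NN 0 z
        rw [NN0, NN0]
        simp
        ring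
      · show NN 1 _ = _ * NN 1 z
        rw [NN1, NN1]
        simp
        ring
      · show NN 2 _ = _ * NN 2 z
        rw [NN2, NN2]
        simp
        ring
    rw [key]
    field_simp

theorem sph : SphStmt := by
  refine ⟨inv_xx, fun z hz => sum_sq (AA_pos hz).ne', fun z hz => ?_, fun z hz => ?_⟩
  · have hA := (AA_pos hz).ne'
    rw [key12 hA, key20 hA, key01 hA, smul_smul, smul_smul, smul_smul, ← add_smul, ← add_smul]
    have := sum_sq hA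
    rw [Fin.sum_univ_three, sq, sq, sq] at this
    rw [this, one_smul]
  · have hA := (AA_pos hz).ne'
    exact ⟨key12 hA, key20 hA, key01 hA⟩

end Pool.Agent.SIU.H65
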